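import Pool.Agent.L0h82.GT.Stm

set_option autoImplicit false

namespace Pool.Agent.L0h36.GT

open Pool.Agent.L0h82.GT Equiv

universe u

/-- skip `y` -/
def o (y : Fin 5) (k : Fin 4) : Fin 5 := y.succAbove k

/-- the three pairings of the other four points -/
def dt (y : Fin 5) (j : Fin 3) : Perm (Fin 5) :=
  match j with
  | 0 => swap (o y 0) (o y 1) * swap (o y 2) (o y 3)
  | 1 => swap (o y 0) (o y 2) * swap (o y 1) (o y 3)
  | 2 => swap (o y 0) (o y 3) * swap (o y 1) (o y 2)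

/-- exactly two fixed points -/
def is3 (σ : Perm (Fin 5)) : Bool := ((List.finRange 5).filter fun i => σ i = i).length == 2

/-- `σ` fixes `y` and swaps the sides of the split `{o 0, dt y j (o 0)}` -/
def SW (y : Fin 5) (j : Fin 3) (σ : Perm (Fin 5)) : Prop :=
  σ y = y ∧ (σ (o y 0) ≠ o y 0 ∧ σ (o y 0) ≠ dt y j (o y 0)) ∧
    σ (dt y j (o y 0)) ≠ o y 0 ∧ σ (dt y j (o y 0)) ≠ dt y j (o y 0)

instance (y : Fin 5) (j : Fin 3) (σ : Perm (Fin 5)) : Decidable (SW y j σ) := by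
  unfold SW; infer_instance

theorem dec1 : ∀ σ : Perm (Fin 5), is3 σ = true → ∃ a d e : Fin 5,
    [a, σ a, σ (σ a), d, e].Nodup ∧ σ (σ (σ a)) = a ∧ σ d = d ∧ σ e = e := by
  decide +kernel

theorem dec2 : ∀ (y : Fin 5) (j : Fin 3) (σ : Perm (Fin 5)), SW y j σ →
    (∃ j' : Fin 3, j' ≠ j ∧ σ = dt y j') ∨ σ * σ = dt y j := by
  decide +kernel

theorem dec3 : ∀ (y : Fin 5) (i j k : Fin 3), i ≠ j → k ≠ i → k ≠ j → dt y i * dt y j = dt y k := by
  decide +kernel

theorem dec4 : ∀ (y y' : Fin 5) (k' : Fin 3), y ≠ y' → ∃ k : Fin 3, is3 (dt y' k' * dt y k) = true := by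
  decide +kernel

theorem dec5 : ∀ J : Fin 5 → Fin 3,
    (∀ y y' : Fin 5, y ≠ y' → is3 (dt y (J y) * dt y' (J y')) = false) →
      ∃ n : Fin 6, ∀ y a : Fin 5, mt n y a = (dt y (J y) a : ℕ) := by
  decide +kernel

theorem dec6 : ∀ y a b c d : Fin 5, [y, a, b, c, d].Nodup → (∃ j : Fin 3, dt y j y = y ∧ dt y j a = b ∧
    dt y j b = a ∧ dt y j c = d ∧ dt y j d = c) ∧ ∀ i : Fin 5, i = y ∨ i = a ∨ i = b ∨ i = c ∨ i = d := by
  decide +kernel

theorem dec7 : ∀ (y : Fin 5) (j : Fin 3), dt y j y = y ∧ ∀ a, dt y j (dt y j a) = a := by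
  decide +kernel

theorem dec8 : ∀ (j : Fin 3) (σ : Perm (Fin 5)), SW 0 j σ →
    (∃ j' : Fin 3, j' ≠ j ∧ σ = dt 0 j') ∨ ∃ e ∈ HF, (∀ i : Fin 5, dg e.1 i = (σ i : ℕ)) ∧
      ∀ a : Fin 5, dg e.1 (dg e.1 a) = (dt 0 j a : ℕ) := by
  decide +kernel

theorem dec9 : ∀ (y : Fin 5) (j : Fin 3), ∃ p q : Fin 5, [y, o y 0, dt y j (o y 0), p, q].Nodup ∧
    ∀ i : Fin 5, i = y ∨ i = o y 0 ∨ i = dt y j (o y 0) ∨ i = p ∨ i = q := by
  decide +kernel

section grp

variable {X : Type u} (G : Subgroup (Equiv.Perm X)) (w : ℕ → X)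

/-- `σ` is induced by an element of `G` -/
def Ind (σ : Perm (Fin 5)) : Prop := ∃ g ∈ G, ∀ i : Fin 5, g (w i) = w (σ i)

variable {G w}

theorem Ind.mul {σ τ : Perm (Fin 5)} (h : Ind G w σ) (h' : Ind G w τ) : Ind G w (σ * τ) := by
  obtain ⟨g, hg, h1⟩ := h
  obtain ⟨g', hg', h2⟩ := h'
  refine ⟨g * g', G.mul_mem hg hg', fun i => ?_⟩
  rw [Equiv.Perm.mul_apply, h2, h1, Equiv.Perm.mul_apply]

theorem no3 (hN : NoC3 G w) {σ : Perm (Fin 5)} (h : Ind G w σ) : is3 σ = false := by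
  by_contra hc
  rw [Bool.not_eq_false] at hc
  obtain ⟨a, d, e, hnd, h3, hd, he⟩ := dec1 σ hc
  obtain ⟨g, hg, h1⟩ := h
  refine hN a (σ a) (σ (σ a)) d e a.2 (σ a).2 (σ (σ a)).2 d.2 e.2 ?_ ⟨g, hg, h1 a, h1 _, ?_, ?_, ?_⟩
  · have := hnd.map Fin.val_injective
    simpa using this
  · rw [h1, h3]
  · rw [h1, hd]
  · rw [h1, he]

theorem exSW (hG : Gen G) (hw : Set.InjOn w (Set.Iio 5)) (y : Fin 5) (j : Fin 3) :
    ∃ σ, Ind G w σ ∧ SW y j σ := by
  classical
  have hinj : ∀ i k : Fin 5, w i = w k → i = k := fun i k h => Fin.ext (hw i.2 k.2 h)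
  obtain ⟨p, q, hnd, hall⟩ := dec9 y j
  set r := o y 0 with hr
  set s := dt y j r with hs
  simp only [List.nodup_cons, List.mem_cons, List.not_mem_nil, or_false, not_or, not_false_eq_true,
    List.nodup_nil, and_true] at hnd
  obtain ⟨⟨n1, n2, n3, n4⟩, ⟨n5, n6, n7⟩, ⟨n8, n9⟩, n10⟩ := hnd
  have hA : ({w y, w r, w s} : Finset X).card = 3 := by
    rw [Finset.card_eq_three]
    exact ⟨_, _, _, fun h => n1 (hinj _ _ h), fun h => n2 (hinj _ _ h), fun h => n5 (hinj _ _ h), rfl⟩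
  have hB : ({w y, w p, w q} : Finset X).card = 3 := by
    rw [Finset.card_eq_three]
    exact ⟨_, _, _, fun h => n3 (hinj _ _ h), fun h => n4 (hinj _ _ h), fun h => n10 (hinj _ _ h), rfl⟩
  obtain ⟨g, hg, h1, h2⟩ := hG _ _ hA hB
  have m : ∀ (a b c x : X), x ∈ ({a, b, c} : Finset X) ↔ x = a ∨ x = b ∨ x = c := by
    intro a b c x; simp
  have gy1 := h1 (w y) ((m _ _ _ _).2 (Or.inl rfl))
  have gy2 := h2 (w y) ((m _ _ _ _).2 (Or.inl rfl))
  have gr := h1 (w r) ((m _ _ _ _).2 (Or.inr (Or.inl rfl)))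
  have gs := h1 (w s) ((m _ _ _ _).2 (Or.inr (Or.inr rfl)))
  have gp := h2 (w p) ((m _ _ _ _).2 (Or.inr (Or.inl rfl)))
  have gq := h2 (w q) ((m _ _ _ _).2 (Or.inr (Or.inr rfl)))
  rw [m] at gy1 gy2 gr gs gp gq
  have gy : g (w y) = w y := by
    rcases gy1 with h | h | h
    · exact h
    · rcases gy2 with h' | h' | h'
      · exact h'
      · exact absurd (hinj _ _ (h.symm.trans h')).symm n6
      · exact absurd (hinj _ _ (h.symm.trans h')).symm n8
    · rcases gy2 with h' | h' | h'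
      · exact h'
      · exact absurd (hinj _ _ (h.symm.trans h')).symm n7
      · exact absurd (hinj _ _ (h.symm.trans h')).symm n9
  have hy : ∀ i : Fin 5, g (w i) = w y → i = y := fun i h =>
    hinj _ _ (g.injective (h.trans gy.symm))
  have hex : ∀ i : Fin 5, ∃ k : Fin 5, g (w i) = w k := by
    intro i
    rcases hall i with rfl | rfl | rfl | rfl | rfl
    · exact ⟨_, gy⟩
    · rcases gr with h | h | h <;> exact ⟨_, h⟩
    · rcases gs with h | h | h <;> exact ⟨_, h⟩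
    · rcases gp with h | h | h <;> exact ⟨_, h⟩
    · rcases gq with h | h | h <;> exact ⟨_, h⟩
  choose f hf using hex
  have finj : Function.Injective f := by
    intro i k h
    refine hinj _ _ (g.injective ?_)
    rw [hf, hf, h]
  refine ⟨Equiv.ofBijective f (Finite.injective_iff_bijective.1 finj), ⟨g, hg, fun i => hf i⟩, ?_⟩
  have fy : f y = y := hinj _ _ ((hf y).symm.trans gy)
  have fr : f r = p ∨ f r = q := by
    rcases gr with h | h | h
    · exact absurd (hy r h).symm n1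
    · exact Or.inl (hinj _ _ ((hf r).symm.trans h))
    · exact Or.inr (hinj _ _ ((hf r).symm.trans h))
  have fs : f s = p ∨ f s = q := by
    rcases gs with h | h | h
    · exact absurd (hy s h).symm n2
    · exact Or.inl (hinj _ _ ((hf s).symm.trans h))
    · exact Or.inr (hinj _ _ ((hf s).symm.trans h))
  refine ⟨fy, ⟨?_, ?_⟩, ?_, ?_⟩
  · change f r ≠ r
    rcases fr with h | h <;> rw [h]
    · exact fun h => n6 h.symm
    · exact fun h => n7 h.symm
  · change f r ≠ s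
    rcases fr with h | h <;> rw [h]
    · exact fun h => n8 h.symm
    · exact fun h => n9 h.symm
  · change f s ≠ r
    rcases fs with h | h <;> rw [h]
    · exact fun h => n6 h.symm
    · exact fun h => n7 h.symm
  · change f s ≠ s
    rcases fs with h | h <;> rw [h]
    · exact fun h => n8 h.symm
    · exact fun h => n9 h.symm

end grp

theorem t_TOT : S_TOT.{u} := by
  intro X G w hG hw hN
  have hinj : ∀ i k : Fin 5, w i = w k → i = k := fun i k h => Fin.ext (hw i.2 k.2 h)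
  have hB : ∀ y : Fin 5, ∃ j : Fin 3, Ind G w (dt y j) := by
    intro y
    obtain ⟨σ, h1, h2⟩ := exSW hG hw y 0
    rcases dec2 y 0 σ h2 with ⟨j', -, rfl⟩ | h
    · exact ⟨j', h1⟩
    · exact ⟨0, h ▸ h1.mul h1⟩
  have hC : ∀ (y : Fin 5) (i j : Fin 3), Ind G w (dt y i) → Ind G w (dt y j) → i = j := by
    intro y i j hi hj
    by_contra hij
    have hall : ∀ k : Fin 3, Ind G w (dt y k) := by
      intro k
      by_cases h1 : k = i
      · rw [h1]; exact hi
      · by_cases h2 : k = j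
        · rw [h2]; exact hj
        · rw [← dec3 y i j k hij h1 h2]; exact hi.mul hj
    obtain ⟨y', hy'⟩ : ∃ y' : Fin 5, y ≠ y' :=
      (by decide : ∀ y : Fin 5, ∃ y' : Fin 5, y ≠ y') y
    obtain ⟨k', hk'⟩ := hB y'
    obtain ⟨k, hk⟩ := dec4 y y' k' hy'
    rw [no3 hN (hk'.mul (hall k))] at hk
    exact Bool.false_ne_true hk
  choose J hJ using hB
  obtain ⟨n, hn⟩ := dec5 J fun y y' _ => no3 hN ((hJ y).mul (hJ y'))
  refine ⟨n, ⟨n.2, ?_⟩, ?_⟩
  · intro y a b c d hy ha hb hc hd hnd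
    lift y to Fin 5 using hy
    lift a to Fin 5 using ha
    lift b to Fin 5 using hb
    lift c to Fin 5 using hc
    lift d to Fin 5 using hd
    have hnd' : [y, a, b, c, d].Nodup := by
      refine List.Nodup.of_map (fun i : Fin 5 => (i : ℕ)) ?_
      simpa using hnd
    obtain ⟨⟨j, j1, j2, j3, j4, j5⟩, hall⟩ := dec6 y a b c d hnd'
    rw [hn, hn]
    constructor
    · rintro ⟨g, hg, g1, g2, g3, g4, g5⟩
      have hI : Ind G w (dt y j) := by
        refine ⟨g, hg, fun i => ?_⟩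
        rcases hall i with rfl | rfl | rfl | rfl | rfl
        · rw [g1, j1]
        · rw [g2, j2]
        · rw [g3, j3]
        · rw [g4, j4]
        · rw [g5, j5]
      have e := hC y j (J y) hI (hJ y)
      rw [← e, j2, j4]
      exact ⟨rfl, rfl⟩
    · rintro ⟨e1, e2⟩
      have e1' : dt y (J y) a = b := Fin.ext e1
      have e2' : dt y (J y) c = d := Fin.ext e2
      obtain ⟨g, hg, h1⟩ := hJ y
      obtain ⟨f1, f2⟩ := dec7 y (J y)
      refine ⟨g, hg, ?_, ?_, ?_, ?_, ?_⟩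
      · rw [h1, f1]
      · rw [h1, e1']
      · rw [h1, ← e1', f2]
      · rw [h1, e2']
      · rw [h1, ← e2', f2]
  · obtain ⟨σ, h1, h2⟩ := exSW hG hw 0 (J 0)
    rcases dec8 (J 0) σ h2 with ⟨j', hj', rfl⟩ | ⟨e, he, e1, e2⟩
    · exact absurd (hC 0 j' (J 0) h1 (hJ 0)) hj'
    · refine ⟨e, he, ?_, ?_⟩
      · unfold Pool.Agent.L0h82.GT.cond
        rw [List.all_eq_true]
        intro a ha
        rw [List.mem_range] at ha
        lift a to Fin 5 using ha
        rw [beq_iff_eq, e2]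
        exact (hn 0 a).symm
      · obtain ⟨g, hg, hg1⟩ := h1
        refine ⟨g, hg, fun i hi => ?_⟩
        lift i to Fin 5 using hi
        rw [hg1, e1]

end Pool.Agent.L0h36.GT
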